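import Pool.Agent.Q283.FG.Stm3
import Pool.Agent.Q65.LK.LOCV
import Pool.Agent.Q285.CE.ESUM

/-!
# Project FG (helper283), job VLR: ramification above `2` and the sum of the local degrees
-/

set_option autoImplicit false

namespace Pool.Agent.Q238.FG

open NumberField IsDedekindDomain Finset
open Pool.Agent.Q7.LK
open Pool.Agent.Q283.FG
open Pool.Agent.Q65.LK (ord_above)
open Pool.Agent.Q285.CE (mem_over pnt pnt_inj range_pnt)

section

variable {K : Type} [Field K] [NumberField K] {p : ℕ} [Fact p.Prime]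

theorem finsum_dv' [Fintype ((Ideal.span {(p : ℤ)}).primesOver (𝓞 K))] :
    ∑ᶠ v : HeightOneSpectrum (𝓞 K), dv p v = ∑ q : (Ideal.span {(p : ℤ)}).primesOver (𝓞 K),
      q.1.ramificationIdx ℤ * q.1.inertiaDeg ℤ := by
  have h1 : ∑ᶠ v : HeightOneSpectrum (𝓞 K), dv p v =
      ∑ᶠ v ∈ Set.range (pnt (p := p) (K := K)), dv p v := by
    rw [← finsum_mem_univ]
    apply finsum_mem_inter_support_eq'
    intro x hx
    rw [range_pnt]
    refine ⟨fun _ => ?_, fun _ => trivial⟩
    by_contra h
    apply hx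
    unfold dv
    rw [if_neg (show ¬ Dp p x from h)]
  rw [h1, finsum_mem_range pnt_inj, finsum_eq_sum_of_fintype]
  refine Finset.sum_congr rfl fun q _ => ?_
  have h2 : Dp p (pnt q) := mem_over q
  unfold dv
  rw [if_pos h2]
  rfl

end

/-- **VLR** -/
theorem vlr : S_VLR := by
  intro F _ _
  have : Fact (Nat.Prime 2) := ⟨Nat.prime_two⟩
  have : (Ideal.span {((2 : ℕ) : ℤ)}).IsMaximal :=
    PrincipalIdealRing.isMaximal_of_irreducible (Nat.prime_iff_prime_int.1 Nat.prime_two).irreducible
  have : (Ideal.span {((2 : ℕ) : ℤ)}).IsPrime := Ideal.IsMaximal.isPrime inferInstance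
  have : Finite ((Ideal.span {((2 : ℕ) : ℤ)}).primesOver (𝓞 F)) :=
    Algebra.QuasiFinite.finite_primesOver _
  have := Fintype.ofFinite ((Ideal.span {((2 : ℕ) : ℤ)}).primesOver (𝓞 F))
  refine ⟨fun v => ?_, ?_, ?_⟩
  · by_cases hv : Dp 2 v
    · have h1 := ord_above 2 v hv
      have hl := Pool.Agent.Q65.LK.lies 2 v hv
      have h3 : Ideal.absNorm v.asIdeal = 2 ^ v.asIdeal.inertiaDeg ℤ := by
        have := v.isPrime
        exact (Ideal.pow_inertiaDeg 2 v.asIdeal).symm
      refine ⟨v.asIdeal.ramificationIdx ℤ, ?_, ?_⟩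
      · exact_mod_cast h1
      · rw [h3, ← pow_mul]
        unfold dv
        rw [if_pos hv, mul_comm]
    · refine ⟨0, ?_, ?_⟩
      · have h4 : v.intValuation ((2 : ℕ) : 𝓞 F) = 1 := by
          rw [v.intValuation_eq_one_iff_mem_primeCompl]
          exact hv
        have h5 : v.valuation F (2 : F) = v.intValuation ((2 : ℕ) : 𝓞 F) := by
          rw [← v.valuation_of_algebraMap (K := F)]
          have h6 : algebraMap (𝓞 F) F ((2 : ℕ) : 𝓞 F) = 2 := by
            rw [map_natCast]
            norm_num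
          exact congrArg (v.valuation F) h6.symm
        rw [h5, h4]
        simp
      · unfold dv
        rw [if_neg hv]
        simp
  · refine (Set.finite_range (pnt (p := 2) (K := F))).subset fun v hv => ?_
    rw [range_pnt]
    by_contra h
    apply hv
    unfold dv
    rw [if_neg (show ¬ Dp 2 v from h)]
  · rw [finsum_dv']
    have htot := Ideal.sum_ramification_inertia_eq_finrank (Ideal.span {((2 : ℕ) : ℤ)}) (𝓞 F)
    rw [RingOfIntegers.rank] at htot
    exact htot

end Pool.Agent.Q238.FG
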